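import Pool.Agent.Helper32.AG.Goals

/-!
# AG-DEC: the primitive idempotents of a commutative group algebra (image)
-/

set_option autoImplicit false

namespace Pool.Agent.Helper66.AG

open Pool.Agent.Helper32.AG

universe u

section Idem

variable {F E : Type*} [CommRing F] [Ring E] [Algebra F E]

/-- The primitive idempotents of `R`. -/
def Prim (R : Subalgebra F E) : Set E :=
  {e | e ∈ R ∧ e * e = e ∧ e ≠ 0 ∧ ∀ f ∈ R, f * f = f → f * e = 0 ∨ f * e = e}

variable {R : Subalgebra F E}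

theorem prim_exists [Finite E] (hc : ∀ x ∈ R, ∀ y ∈ R, x * y = y * x) {g : E} (hg : g ∈ R)
    (hgg : g * g = g) (hg0 : g ≠ 0) : ∃ e ∈ Prim R, e * g = e := by
  let S : Set E := {h | h ∈ R ∧ h * h = h ∧ h ≠ 0 ∧ h * g = h}
  obtain ⟨e, ⟨he1, he2, he3, he4⟩, hmin⟩ :=
    Set.exists_min_image S (fun h => {x : E | x * h = x}.ncard) (Set.toFinite S)
      ⟨g, hg, hgg, hg0, hgg⟩
  refine ⟨e, ⟨he1, he2, he3, fun f hf hff => ?_⟩, he4⟩
  by_cases h0 : f * e = 0
  · exact Or.inl h0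
  right
  have hcom : e * f = f * e := hc e he1 f hf
  have h1 : f * e ∈ S := by
    refine ⟨R.mul_mem hf he1, ?_, h0, ?_⟩
    · calc f * e * (f * e) = f * (e * f) * e := by simp only [mul_assoc]
        _ = f * (f * e) * e := by rw [hcom]
        _ = (f * f) * (e * e) := by simp only [mul_assoc]
        _ = f * e := by rw [hff, he2]
    · rw [mul_assoc, he4]
  have h2 := hmin _ h1
  have h3 : {x : E | x * (f * e) = x} ⊆ {x : E | x * e = x} := by
    intro x hx
    have hx' : x * (f * e) = x := hx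
    change x * e = x
    calc x * e = x * (f * e) * e := by rw [hx']
      _ = x * (f * (e * e)) := by simp only [mul_assoc]
      _ = x := by rw [he2, hx']
  have h4 := Set.eq_of_subset_of_ncard_le h3 h2 (Set.toFinite _)
  have h5 : e ∈ {x : E | x * (f * e) = x} := by rw [h4]; exact he2
  have h6 : e * (f * e) = e := h5
  calc f * e = f * (e * e) := by rw [he2]
    _ = (f * e) * e := by rw [mul_assoc]
    _ = e * f * e := by rw [hcom]
    _ = e := by rw [mul_assoc, h6]

theorem prim_orth (hc : ∀ x ∈ R, ∀ y ∈ R, x * y = y * x) {e e' : E} (he : e ∈ Prim R)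
    (he' : e' ∈ Prim R) (hne : e ≠ e') : e * e' = 0 := by
  have h1 := he.2.2.2 e' he'.1 he'.2.1
  have h2 := he'.2.2.2 e he.1 he.2.1
  rcases h2 with h2 | h2
  · exact h2
  rcases h1 with h1 | h1
  · rw [hc e he.1 e' he'.1, h1]
  · exfalso
    apply hne
    rw [← h1, hc e' he'.1 e he.1, h2]

theorem prim_mul_sum (hc : ∀ x ∈ R, ∀ y ∈ R, x * y = y * x) (hP : (Prim R).Finite) {e : E}
    (he : e ∈ Prim R) : e * ∑ x ∈ hP.toFinset, x = e := by
  rw [Finset.mul_sum, Finset.sum_eq_single e]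
  · exact he.2.1
  · intro x hx hxe
    exact prim_orth hc he (hP.mem_toFinset.1 hx) (Ne.symm hxe)
  · intro h
    exact absurd (hP.mem_toFinset.2 he) h

theorem prim_sum [Finite E] (hc : ∀ x ∈ R, ∀ y ∈ R, x * y = y * x) (hP : (Prim R).Finite) :
    ∑ x ∈ hP.toFinset, x = 1 := by
  set S : E := ∑ x ∈ hP.toFinset, x with hS
  have hSR : S ∈ R := R.sum_mem fun x hx => (hP.mem_toFinset.1 hx).1
  have hSS : S * S = S := by
    conv_lhs => rw [hS, Finset.sum_mul]
    rw [hS]
    refine Finset.sum_congr rfl fun x hx => ?_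
    exact prim_mul_sum hc hP (hP.mem_toFinset.1 hx)
  by_contra hne
  have hg0 : 1 - S ≠ 0 := fun h => hne (sub_eq_zero.1 h).symm
  have hgg : (1 - S) * (1 - S) = 1 - S := by
    rw [mul_sub, sub_mul, sub_mul, one_mul, mul_one, one_mul, hSS]
    abel
  obtain ⟨e, he, heg⟩ := prim_exists hc (R.sub_mem R.one_mem hSR) hgg hg0
  rw [mul_sub, mul_one, prim_mul_sum hc hP he, sub_self] at heg
  exact he.2.2.1 heg.symm

theorem prim_fld {n : ℕ}
    (hn : ∀ x ∈ R, x ^ (n + 2) = x) {e : E} (he : e ∈ Prim R) {x : E} (hx : x ∈ R)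
    (hxe : x * e ≠ 0) : ∃ y ∈ R, x * y * e = e := by
  refine ⟨x ^ n, R.pow_mem hx n, ?_⟩
  have h1 : x * x ^ n = x ^ (n + 1) := (pow_succ' x n).symm
  rw [h1]
  have h2 : x ^ (n + 1) * x ^ (n + 1) = x ^ (n + 1) := by
    rw [← pow_add]
    have : n + 1 + (n + 1) = n + (n + 2) := by ring
    rw [this, pow_add, hn x hx, ← pow_succ]
  rcases he.2.2.2 _ (R.pow_mem hx (n + 1)) h2 with h3 | h3
  · exfalso
    apply hxe
    have h4 : x = x * x ^ (n + 1) := by rw [← pow_succ', hn x hx]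
    rw [h4, mul_assoc, h3, mul_zero]
  · exact h3

end Idem

section Conj

variable {p : ℕ} [Fact p.Prime] {U : Type u} [AddCommGroup U] [Module (ZMod p) U]

theorem cj_apply (h : U ≃ₗ[ZMod p] U) (x : Module.End (ZMod p) U) (v : U) :
    cj h x v = h (x (h⁻¹ v)) := rfl

theorem inv_apply' (h : U ≃ₗ[ZMod p] U) (v : U) : h⁻¹ (h v) = v := h.symm_apply_apply v

theorem apply_inv' (h : U ≃ₗ[ZMod p] U) (v : U) : h (h⁻¹ v) = v := h.apply_symm_apply v

theorem cj_mul (h : U ≃ₗ[ZMod p] U) (x y : Module.End (ZMod p) U) :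
    cj h (x * y) = cj h x * cj h y := by
  ext v
  rw [cj_apply, Module.End.mul_apply, Module.End.mul_apply, cj_apply, cj_apply, inv_apply']

theorem cj_add (h : U ≃ₗ[ZMod p] U) (x y : Module.End (ZMod p) U) :
    cj h (x + y) = cj h x + cj h y := by
  ext v
  rw [cj_apply, LinearMap.add_apply, LinearMap.add_apply, map_add, cj_apply, cj_apply]

theorem cj_algebraMap (h : U ≃ₗ[ZMod p] U) (r : ZMod p) :
    cj h (algebraMap (ZMod p) (Module.End (ZMod p) U) r) = algebraMap _ _ r := by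
  ext v
  rw [cj_apply, Module.algebraMap_end_apply, Module.algebraMap_end_apply, map_smul, apply_inv']

theorem cj_zero (h : U ≃ₗ[ZMod p] U) : cj h (0 : Module.End (ZMod p) U) = 0 := by
  ext v
  rw [cj_apply, LinearMap.zero_apply, LinearMap.zero_apply, map_zero]

theorem cj_inv_cj (h : U ≃ₗ[ZMod p] U) (x : Module.End (ZMod p) U) : cj h⁻¹ (cj h x) = x := by
  ext v
  rw [cj_apply, cj_apply, inv_inv, inv_apply', inv_apply']

theorem cj_cj_inv (h : U ≃ₗ[ZMod p] U) (x : Module.End (ZMod p) U) : cj h (cj h⁻¹ x) = x := by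
  ext v
  rw [cj_apply, cj_apply, inv_inv, apply_inv', apply_inv']

theorem cj_comp (h g : U ≃ₗ[ZMod p] U) (x : Module.End (ZMod p) U) :
    cj h (cj g x) = cj (h * g) x := by
  ext v
  rw [cj_apply, cj_apply, cj_apply, mul_inv_rev]
  rfl

theorem cj_mem {H A : Subgroup (U ≃ₗ[ZMod p] U)} (hn : ∀ h ∈ H, ∀ a ∈ A, h * a * h⁻¹ ∈ A)
    {h : U ≃ₗ[ZMod p] U} (hh : h ∈ H) {x : Module.End (ZMod p) U} (hx : x ∈ Rg A) :
    cj h x ∈ Rg A := by
  unfold Rg at hx ⊢
  induction hx using Algebra.adjoin_induction with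
  | mem x hx =>
    obtain ⟨a, ha, rfl⟩ := hx
    refine Algebra.subset_adjoin ⟨h * a * h⁻¹, hn h hh a ha, ?_⟩
    ext v
    rfl
  | algebraMap r =>
    rw [cj_algebraMap]
    exact Subalgebra.algebraMap_mem _ r
  | add x y _ _ hx hy =>
    rw [cj_add]
    exact Subalgebra.add_mem _ hx hy
  | mul x y _ _ hx hy =>
    rw [cj_mul]
    exact Subalgebra.mul_mem _ hx hy

theorem cj_prim {H A : Subgroup (U ≃ₗ[ZMod p] U)} (hn : ∀ h ∈ H, ∀ a ∈ A, h * a * h⁻¹ ∈ A)
    {h : U ≃ₗ[ZMod p] U} (hh : h ∈ H) {e : Module.End (ZMod p) U} (he : e ∈ Prim (Rg A)) :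
    cj h e ∈ Prim (Rg A) := by
  refine ⟨cj_mem hn hh he.1, by rw [← cj_mul, he.2.1], ?_, ?_⟩
  · intro h0
    apply he.2.2.1
    rw [← cj_inv_cj h e, h0, cj_zero]
  · intro f hf hff
    have h1 : cj h⁻¹ f ∈ Rg A := cj_mem hn (H.inv_mem hh) hf
    have h2 : cj h⁻¹ f * cj h⁻¹ f = cj h⁻¹ f := by rw [← cj_mul, hff]
    have h3 : f * cj h e = cj h (cj h⁻¹ f * e) := by rw [cj_mul, cj_cj_inv]
    rw [h3]
    rcases he.2.2.2 _ h1 h2 with h4 | h4
    · left
      rw [h4, cj_zero]
    · right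
      rw [h4]

theorem Rg_comm {A : Subgroup (U ≃ₗ[ZMod p] U)} (hc : ∀ a ∈ A, ∀ b ∈ A, a * b = b * a) :
    ∀ x ∈ Rg A, ∀ y ∈ Rg A, x * y = y * x := by
  intro x hx y hy
  have key : ∀ a ∈ A, Commute ((a : U ≃ₗ[ZMod p] U) : Module.End (ZMod p) U) y := by
    intro a ha
    refine Algebra.commute_of_mem_adjoin_of_forall_mem_commute hy ?_
    rintro _ ⟨b, hb, rfl⟩
    have h1 := hc a ha b hb
    ext v
    exact congrArg (fun g : U ≃ₗ[ZMod p] U => g v) h1
  have h2 : Commute y x := by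
    refine Algebra.commute_of_mem_adjoin_of_forall_mem_commute hx ?_
    rintro _ ⟨b, hb, rfl⟩
    exact (key b hb).symm
  exact h2.symm

theorem coe_pow' (a : U ≃ₗ[ZMod p] U) (n : ℕ) :
    ((a ^ n : U ≃ₗ[ZMod p] U) : Module.End (ZMod p) U) = (a : Module.End (ZMod p) U) ^ n :=
  map_pow (LinearEquiv.automorphismGroup.toLinearMapMonoidHom (R := ZMod p) (M := U)) a n

/-- The Frobenius map has finite order on `Rg A`. -/
theorem Rg_pow [Finite U] [Nontrivial U] {A : Subgroup (U ≃ₗ[ZMod p] U)}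
    (hc : ∀ a ∈ A, ∀ b ∈ A, a * b = b * a) (hp : ¬ p ∣ Nat.card A) :
    ∃ n : ℕ, ∀ x ∈ Rg A, x ^ (n + 2) = x := by
  have hpp : p.Prime := Fact.out
  have : CharP (Module.End (ZMod p) U) p :=
    charP_of_injective_algebraMap (algebraMap (ZMod p) (Module.End (ZMod p) U)).injective p
  have hfin : Finite (U ≃ₗ[ZMod p] U) := DFunLike.finite _
  have hA0 : 0 < Nat.card A := Nat.card_pos
  have hcop : Nat.Coprime p (Nat.card A) := (Nat.Prime.coprime_iff_not_dvd hpp).2 hp
  set m : ℕ := Nat.totient (Nat.card A) with hm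
  have hm0 : 0 < m := Nat.totient_pos.2 hA0
  have h1 : 1 ≡ p ^ m [MOD Nat.card A] := (Nat.ModEq.pow_totient hcop).symm
  have hp2 : 2 ≤ p ^ m := by
    calc 2 ≤ p := hpp.two_le
      _ = p ^ 1 := (pow_one p).symm
      _ ≤ p ^ m := Nat.pow_le_pow_right hpp.pos hm0
  obtain ⟨t, ht⟩ := (Nat.modEq_iff_dvd' (by omega : 1 ≤ p ^ m)).1 h1
  have ht' : p ^ m = Nat.card A * t + 1 := by omega
  refine ⟨p ^ m - 2, fun x hx => ?_⟩
  rw [Nat.sub_add_cancel hp2]
  have hcomm := Rg_comm hc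
  unfold Rg at hx hcomm
  induction hx using Algebra.adjoin_induction with
  | mem x hx =>
    obtain ⟨a, ha, rfl⟩ := hx
    have h2 : a ^ Nat.card A = 1 := by
      have := pow_card_eq_one' (x := (⟨a, ha⟩ : A))
      exact congrArg (fun z : A => (z : U ≃ₗ[ZMod p] U)) this
    have h3 : a ^ (p ^ m) = a := by
      rw [ht', pow_succ, pow_mul, h2, one_pow, one_mul]
    change ((a : U ≃ₗ[ZMod p] U) : Module.End (ZMod p) U) ^ (p ^ m) = _
    rw [← coe_pow', h3]
  | algebraMap r =>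
    rw [← map_pow, ZMod.pow_card_pow]
  | add x y hx' hy' hx hy =>
    have hxy : Commute x y := hcomm x hx' y hy'
    rw [add_pow_char_pow_of_commute p m hxy, hx, hy]
  | mul x y hx' hy' hx hy =>
    have hxy : Commute x y := hcomm x hx' y hy'
    rw [hxy.mul_pow, hx, hy]

theorem card_range_cj (h : U ≃ₗ[ZMod p] U) (x : Module.End (ZMod p) U) :
    Nat.card (LinearMap.range (cj h x)) = Nat.card (LinearMap.range x) := by
  refine Nat.card_congr ⟨fun v => ⟨h⁻¹ (v : U), ?_⟩, fun v => ⟨h (v : U), ?_⟩, ?_, ?_⟩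
  · obtain ⟨w, hw⟩ := v.2
    exact ⟨h⁻¹ w, by rw [← hw, cj_apply, inv_apply']⟩
  · obtain ⟨w, hw⟩ := v.2
    exact ⟨h w, by rw [cj_apply, inv_apply', hw]⟩
  · rintro ⟨v, hv⟩
    exact Subtype.ext (apply_inv' h v)
  · rintro ⟨v, hv⟩
    exact Subtype.ext (inv_apply' h v)

end Conj

theorem dec : DecStmt.{u} := by
  intro p _ U _ _ _ _ H A hirr hAH hn hc hp
  have : Finite (Module.End (ZMod p) U) := DFunLike.finite _
  have hcomm := Rg_comm hc
  obtain ⟨n, hpow⟩ := Rg_pow hc hp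
  have hP : (Prim (Rg A)).Finite := Set.toFinite _
  set P : Finset (Module.End (ZMod p) U) := hP.toFinset with hPdef
  have hmem : ∀ x, x ∈ P ↔ x ∈ Prim (Rg A) := fun x => hP.mem_toFinset
  have hsum : ∑ x ∈ P, x = 1 := prim_sum hcomm hP
  -- transitivity
  have htrans : ∀ e ∈ Prim (Rg A), ∀ f ∈ Prim (Rg A), ∃ h ∈ H, cj h e = f := by
    intro e he f hf
    by_contra hno
    push Not at hno
    let W : Submodule (ZMod p) U :=
      { carrier := {v | ∀ g ∈ Prim (Rg A), (∀ h ∈ H, cj h e ≠ g) → g v = 0}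
        add_mem' := by
          intro a b ha hb g hg hgn
          rw [map_add, ha g hg hgn, hb g hg hgn, add_zero]
        zero_mem' := by
          intro g _ _
          exact map_zero g
        smul_mem' := by
          intro c x hx g hg hgn
          rw [map_smul, hx g hg hgn, smul_zero] }
    have hW : ∀ h ∈ H, ∀ v ∈ W, h v ∈ W := by
      intro h hh v hv g hg hgn
      have h1 : (cj h⁻¹ g) v = 0 := by
        refine hv _ (cj_prim hn (H.inv_mem hh) hg) ?_
        intro h' hh' heq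
        apply hgn (h * h') (H.mul_mem hh hh')
        rw [← cj_comp, heq, cj_cj_inv]
      rw [cj_apply, inv_inv] at h1
      have h2 := congrArg h h1
      rw [apply_inv', map_zero] at h2
      exact h2
    rcases hirr W hW with h0 | h1
    · apply he.2.2.1
      ext v
      have hv : e v ∈ W := by
        intro g hg hgn
        have hge : g ≠ e := by
          rintro rfl
          apply hgn 1 H.one_mem
          ext v
          rfl
        have := prim_orth hcomm hg he hge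
        exact congrArg (fun z : Module.End (ZMod p) U => z v) this
      rw [h0] at hv
      exact (Submodule.mem_bot _).1 hv
    · apply hf.2.2.1
      ext v
      have hv : v ∈ W := by rw [h1]; trivial
      exact hv f hf hno
  have hPne : P.Nonempty := by
    obtain ⟨e, he, -⟩ := prim_exists (R := Rg A) hcomm (g := 1) (Rg A).one_mem (one_mul 1)
      one_ne_zero
    exact ⟨e, (hmem e).2 he⟩
  have hs : 0 < P.card := Finset.card_pos.2 hPne
  let E : Fin P.card → Module.End (ZMod p) U := fun i => (P.equivFin.symm i : _)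
  have hE : ∀ i, E i ∈ Prim (Rg A) := fun i => (hmem _).1 (P.equivFin.symm i).2
  have hEinj : ∀ i j, i ≠ j → E i ≠ E j := by
    intro i j hij h
    exact hij (P.equivFin.symm.injective (Subtype.ext h))
  have hEsurj : ∀ x ∈ Prim (Rg A), ∃ j, x = E j := by
    intro x hx
    refine ⟨P.equivFin ⟨x, (hmem x).2 hx⟩, ?_⟩
    simp only [E, Equiv.symm_apply_apply]
  refine ⟨P.card, Nat.card (LinearMap.range (E ⟨0, hs⟩)), E, hs, ?_⟩
  refine ⟨fun i => (hE i).1, fun i => (hE i).2.2.1, fun i => (hE i).2.1,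
    fun i j hij => prim_orth hcomm (hE i) (hE j) (hEinj i j hij), ?_,
    fun i x hx hxe => prim_fld hpow (hE i) hx hxe, ?_, ?_, ?_⟩
  · rw [← hsum, ← Finset.sum_coe_sort P]
    exact Equiv.sum_comp P.equivFin.symm (fun x : P => (x : Module.End (ZMod p) U))
  · intro h hh i
    obtain ⟨j, hj⟩ := hEsurj _ (cj_prim hn hh (hE i))
    exact ⟨j, hj⟩
  · intro i j
    exact htrans _ (hE i) _ (hE j)
  · intro i
    obtain ⟨h, -, hh⟩ := htrans _ (hE ⟨0, hs⟩) _ (hE i)
    rw [← hh, card_range_cj]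

end Pool.Agent.Helper66.AG
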